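import Pool.Agent.TH61.CHG.Field

/-!
# `C_h[g]`-sets of optimal order for `g ≥ (h - 1)! + 1`

A set of integers is a `C_h[g]`-set if it contains no `g` distinct translates of a set of `h`
integers. For all `h ≥ 2` and `g ≥ (h - 1)! + 1` every interval `{1, …, n}` contains a
`C_h[g]`-set with at least `c n ^ (1 - 1 / h)` elements, `c = 1 / (2 * 4 ^ (h - 1))`.
-/

set_option autoImplicit false

namespace Pool.Agent.Results.MP_7f687a_co.FactorialBelow

/-- `A` is a `C_h[g]`-set: no set `X` of `h` integers has `g` distinct translates `X + t` all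
contained in `A` -/
def IsChg (h g : ℕ) (A : Set ℤ) : Prop :=
  ¬ ∃ X T : Finset ℤ, X.card = h ∧ T.card = g ∧ ∀ t ∈ T, ∀ x ∈ X, x + t ∈ A

/-- For `h ≥ 2`, `g ≥ (h - 1)! + 1` and every `n ≥ 1` there is a `C_h[g]`-set contained in
`{1, …, n}` with at least `n ^ (1 - 1 / h) / (2 * 4 ^ (h - 1))` elements. -/
theorem result : ∀ h g : ℕ, 2 ≤ h → (h - 1).factorial + 1 ≤ g → ∀ n : ℕ, 1 ≤ n →
    ∃ A : Finset ℤ, (∀ a ∈ A, 1 ≤ a ∧ a ≤ (n : ℤ)) ∧ IsChg h g (A : Set ℤ) ∧
      (n : ℝ) ^ (1 - 1 / (h : ℝ)) / (2 * 4 ^ (h - 1)) ≤ (A.card : ℝ) := by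
  intro h g hh hg n hn
  have hh0 : (h : ℝ) ≠ 0 := by
    have : (0 : ℕ) < h := by omega
    exact_mod_cast this.ne'
  have hhr : (0 : ℝ) < h := lt_of_le_of_ne (Nat.cast_nonneg _) hh0.symm
  have hn0 : (0 : ℝ) ≤ n := Nat.cast_nonneg _
  -- the exponent
  have hexp : ∀ y : ℝ, 0 ≤ y → (y ^ h) ^ (1 - 1 / (h : ℝ)) = y ^ (h - 1) := by
    intro y hy
    rw [← Real.rpow_natCast y h, ← Real.rpow_mul hy, ← Real.rpow_natCast y (h - 1)]
    congr 1
    rw [Nat.cast_sub (by omega)]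
    field_simp
    simp
  have he0 : 0 ≤ 1 - 1 / (h : ℝ) := by
    rw [sub_nonneg, div_le_one hhr]
    exact_mod_cast (by omega : 1 ≤ h)
  have h4 : (0 : ℝ) < 2 * 4 ^ (h - 1) := by positivity
  by_cases hbig : n < 4 ^ h
  · refine ⟨{1}, ?_, ?_, ?_⟩
    · intro a ha
      rw [Finset.mem_singleton] at ha
      subst ha
      exact ⟨le_refl _, by exact_mod_cast hn⟩
    · rintro ⟨X, T, hX, hT, hXT⟩
      obtain ⟨x, hx, y, hy, hxy⟩ := Finset.one_lt_card.1 (show 1 < X.card by omega)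
      obtain ⟨t, ht⟩ := Finset.card_pos.1 (show 0 < T.card by omega)
      have h1 := hXT t ht x hx
      have h2 := hXT t ht y hy
      simp only [Finset.coe_singleton, Set.mem_singleton_iff] at h1 h2
      omega
    · rw [Finset.card_singleton, Nat.cast_one, div_le_one h4]
      have h1 : (n : ℝ) ≤ (4 : ℝ) ^ h := by exact_mod_cast hbig.le
      have h2 := Real.rpow_le_rpow hn0 h1 he0
      rw [hexp 4 (by norm_num)] at h2
      have h3 : (0 : ℝ) < 4 ^ (h - 1) := by positivity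
      linarith
  · push Not at hbig
    set y : ℝ := (n : ℝ) ^ (1 / (h : ℝ)) with hy
    have hy0 : 0 ≤ y := Real.rpow_nonneg hn0 _
    have hyh : y ^ h = n := by
      rw [hy, ← Real.rpow_natCast, ← Real.rpow_mul hn0, one_div, inv_mul_cancel₀ hh0,
        Real.rpow_one]
    have hy4 : 4 ≤ y := by
      by_contra hcon
      push Not at hcon
      have h1 : y ^ h < 4 ^ h := pow_lt_pow_left₀ hcon hy0 (by omega)
      rw [hyh] at h1
      have h2 : ((4 ^ h : ℕ) : ℝ) ≤ n := by exact_mod_cast hbig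
      push_cast at h2
      linarith
    set M : ℕ := ⌊y / 4⌋₊ with hM
    have hM1 : 1 ≤ M := by
      rw [hM, Nat.one_le_floor_iff]
      linarith
    have hMle : (M : ℝ) ≤ y / 4 := Nat.floor_le (by positivity)
    have hMlt : y / 4 < M + 1 := Nat.lt_floor_add_one _
    obtain ⟨p, hp, hp1, hp2⟩ := Nat.exists_prime_lt_and_le_two_mul M (by omega)
    have : Fact p.Prime := ⟨hp⟩
    have hpy : y / 4 ≤ p := by
      have : (M : ℝ) + 1 ≤ p := by exact_mod_cast hp1
      linarith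
    have hpy2 : 2 * (p : ℝ) ≤ y := by
      have : (p : ℝ) ≤ 2 * M := by exact_mod_cast hp2
      linarith
    obtain ⟨A, hA, hcard, hfew⟩ := Pool.Agent.TH61.CHG.exists_set p (h - 1) (by omega)
    have hh1 : h - 1 + 1 = h := by omega
    rw [hh1] at hA
    refine ⟨A, ?_, ?_, ?_⟩
    · intro a ha
      obtain ⟨h1, h2⟩ := hA a ha
      refine ⟨h1, h2.trans ?_⟩
      have h3 : (2 * (p : ℝ)) ^ h ≤ n := by
        rw [← hyh]
        exact pow_le_pow_left₀ (by positivity) hpy2 h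
      exact_mod_cast h3
    · rintro ⟨X, T, hX, hT, hXT⟩
      have := hfew X T (by omega) fun x hx t ht => hXT t ht x hx
      omega
    · rw [hcard]
      have hp2' : 2 ≤ p := hp.two_le
      have h1 : 2 ≤ p ^ (h - 1) := by
        calc 2 ≤ p := hp2'
          _ = p ^ 1 := (pow_one p).symm
          _ ≤ p ^ (h - 1) := Nat.pow_le_pow_right (by omega) (by omega)
      rw [Nat.cast_sub (by omega), Nat.cast_pow, Nat.cast_one]
      have h1' : (2 : ℝ) ≤ (p : ℝ) ^ (h - 1) := by exact_mod_cast h1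
      have h2 : (y / 4) ^ (h - 1) ≤ (p : ℝ) ^ (h - 1) :=
        pow_le_pow_left₀ (by positivity) hpy _
      have h3 : (n : ℝ) ^ (1 - 1 / (h : ℝ)) = y ^ (h - 1) := by
        rw [← hyh, hexp y hy0]
      have h5 : (n : ℝ) ^ (1 - 1 / (h : ℝ)) / (2 * 4 ^ (h - 1)) = (y / 4) ^ (h - 1) / 2 := by
        rw [h3, div_pow]
        field_simp
      rw [h5]
      linarith

end Pool.Agent.Results.MP_7f687a_co.FactorialBelow
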